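import Mathlib

namespace Pool.Agent.H.MP_28fd2b_an

open Filter Topology MeasureTheory Finset
open scoped ENNReal BoundedContinuousFunction

variable {X : Type} [MetricSpace X] [CompactSpace X] [MeasurableSpace X] [BorelSpace X]
  {T : X → X}

theorem unif (hT : Continuous T) {μ : Measure X}
    (hu : ∀ ν : Measure X, IsProbabilityMeasure ν ∧ ν.map T = ν → ν = μ) (φ : C(X, ℝ)) {ε : ℝ}
    (hε : 0 < ε) : ∃ L0, ∀ L ≥ L0, ∀ y, |∑ n ∈ range L, φ (T^[n] y) - L * ∫ x, φ x ∂μ| ≤ ε * L := by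
  by_contra h
  push Not at h
  choose L hL y hy using fun j => h (j + 1)
  have L0 : ∀ j, (0 : ℝ) < L j := fun j => by exact_mod_cast (Nat.succ_pos j).trans_le (hL j)
  let ν : ℕ → ProbabilityMeasure X := fun j =>
    ⟨(L j : ℝ≥0∞)⁻¹ • ∑ n ∈ range (L j), Measure.dirac (T^[n] (y j)), ⟨by
      have : L j ≠ 0 := by have := hL j; omega
      simp only [Measure.smul_apply, Measure.coe_finsetSum, Finset.sum_apply, measure_univ, sum_const,
        card_range, nsmul_eq_mul, mul_one, smul_eq_mul]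
      exact ENNReal.inv_mul_cancel (by simpa) (by simp)⟩⟩
  have hν : ∀ j (f : X →ᵇ ℝ), ∫ x, f x ∂(ν j : Measure X) =
      (L j : ℝ)⁻¹ * ∑ n ∈ range (L j), f (T^[n] (y j)) := by
    intro j f
    change ∫ x, f x ∂((L j : ℝ≥0∞)⁻¹ • ∑ n ∈ range (L j), Measure.dirac (T^[n] (y j))) = _
    rw [integral_smul_measure, integral_finsetSum_measure fun n _ => f.integrable _]
    simp
  obtain ⟨ρ, -, hρ⟩ := isCompact_univ.ultrafilter_le_nhds ((hyperfilter ℕ).map ν) (by simp)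
  have hρ' : ∀ f : X →ᵇ ℝ, Tendsto (fun j => ∫ x, f x ∂(ν j : Measure X)) (hyperfilter ℕ)
      (𝓝 (∫ x, f x ∂(ρ : Measure X))) :=
    ProbabilityMeasure.tendsto_iff_forall_integral_tendsto.1 hρ
  have inv : (ρ : Measure X).map T = ρ := by
    refine ext_of_forall_integral_eq_of_IsFiniteMeasure fun f => ?_
    rw [integral_map hT.aemeasurable f.continuous.aestronglyMeasurable]
    have h1 := (hρ' (f.compContinuous ⟨T, hT⟩)).sub (hρ' f)
    have h2 : Tendsto (fun j => ∫ x, f.compContinuous ⟨T, hT⟩ x ∂(ν j : Measure X) -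
        ∫ x, f x ∂(ν j : Measure X)) (hyperfilter ℕ) (𝓝 0) := by
      refine Tendsto.mono_left ?_ Nat.hyperfilter_le_atTop
      refine squeeze_zero_norm (a := fun j : ℕ => (2 * ‖f‖) / ((j : ℝ) + 1)) (fun j => ?_) ?_
      · rw [hν, hν, ← mul_sub, ← sum_sub_distrib]
        have := sum_range_sub (fun n => f (T^[n] (y j))) (L j)
        simp only [Function.iterate_succ_apply'] at this
        simp only [BoundedContinuousFunction.compContinuous_apply, ContinuousMap.coe_mk, this]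
        rw [norm_mul, norm_inv, Real.norm_natCast, inv_mul_eq_div]
        refine div_le_div₀ (by positivity) ((norm_sub_le _ _).trans ?_) (by positivity)
          (by exact_mod_cast hL j)
        linarith [f.norm_coe_le_norm (T^[L j] (y j)), f.norm_coe_le_norm (T^[0] (y j))]
      · exact tendsto_const_nhds.div_atTop (tendsto_natCast_atTop_atTop.atTop_add
          tendsto_const_nhds)
    exact sub_eq_zero.1 (tendsto_nhds_unique h1 h2)
  have e := hu ρ ⟨inferInstance, inv⟩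
  have h3 := ((hρ' (BoundedContinuousFunction.mkOfCompact φ)).sub_const (∫ x, φ x ∂μ)).abs
  rw [e] at h3
  have := ge_of_tendsto' h3 (b := ε) fun j => by
    rw [hν]
    have := hy j
    have h4 := L0 j
    rw [show (L j : ℝ)⁻¹ * ∑ n ∈ range (L j), (BoundedContinuousFunction.mkOfCompact φ)
      (T^[n] (y j)) - ∫ x, φ x ∂μ = (L j : ℝ)⁻¹ * (∑ n ∈ range (L j), φ (T^[n] (y j)) -
        L j * ∫ x, φ x ∂μ) by simp only [BoundedContinuousFunction.mkOfCompact_apply]; field_simp,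
      abs_mul, abs_of_pos (inv_pos.2 h4), le_inv_mul_iff₀ h4]
    linarith
  simp at this
  linarith

theorem shift_sum {u : ℕ → ℝ} {H : ℕ} (hu : ∀ h, u (h + H) = u h) (t : ℕ) :
    ∑ h ∈ range H, u (h + t) = ∑ h ∈ range H, u h := by
  induction t with
  | zero => rfl
  | succ t ih =>
    have h1 := sum_range_succ' (fun h => u (h + t)) H
    have h2 := sum_range_succ (fun h => u (h + t)) H
    have h3 := hu t
    simp only [add_assoc, add_comm 1 t, zero_add, add_comm H t] at h1 h2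
    linarith

theorem orth {q q' H : ℕ} [NeZero q] (hc : q.Coprime q') (h1 : q ∣ H) (h2 : q' ∣ H)
    (ψ : ZMod q → ℝ) (ψ' : ZMod q' → ℝ) (h0 : ∑ z, ψ z = 0) (r : ZMod q) (r' : ZMod q') :
    ∑ h ∈ range H, ψ (r + h) * ψ' (r' + h) = 0 := by
  have a1 : (H : ZMod q) = 0 := (ZMod.natCast_eq_zero_iff _ _).2 h1
  have a2 : (H : ZMod q') = 0 := (ZMod.natCast_eq_zero_iff _ _).2 h2
  have key : ∀ t : ZMod q, ∑ h ∈ range H, ψ (r + h) * ψ' (r' + h) =
      ∑ h ∈ range H, ψ (r + h + t * q') * ψ' (r' + h) := by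
    intro t
    rw [← shift_sum (u := fun h => ψ (r + h) * ψ' (r' + h)) (fun h => by simp [a1, a2])
      (t.val * q')]
    simp [add_assoc]
  have h3 : ∑ _t : ZMod q, ∑ h ∈ range H, ψ (r + h) * ψ' (r' + h) = 0 := by
    rw [sum_congr rfl fun t _ => key t, sum_comm]
    refine sum_eq_zero fun h _ => ?_
    rw [← sum_mul, ← zero_mul (ψ' (r' + h)), ← h0]
    congr 1
    exact Fintype.sum_equiv ((ZMod.unitOfCoprime q' hc.symm).mulRight.trans
      (Equiv.addLeft (r + h))) _ _ fun t => rfl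
  simpa [NeZero.ne q] using h3

theorem bessel {H : ℕ} (H0 : 0 < H) (s : Finset ℕ) (v : ℕ → ℝ) (e : ℕ → ℕ → ℝ)
    (hv : ∀ h, |v h| ≤ 1) (he : ∀ a h, |e a h| ≤ 1)
    (ho : ∀ a ∈ s, ∀ b ∈ s, a ≠ b → ∑ h ∈ range H, e a h * e b h = 0) :
    ∑ a ∈ s, ((H : ℝ)⁻¹ * ∑ h ∈ range H, v h * e a h) ^ 2 ≤ 1 := by
  obtain ⟨c, hc⟩ : ∃ c : ℕ → ℝ, ∀ a, c a = (H : ℝ)⁻¹ * ∑ h ∈ range H, v h * e a h :=
    ⟨_, fun _ => rfl⟩
  have H1 : (0 : ℝ) < H := by exact_mod_cast H0
  simp only [← hc]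
  have sq1 : ∀ x : ℕ → ℝ, (∀ h, |x h| ≤ 1) → ∑ h ∈ range H, x h * x h ≤ H := fun x hx => by
    simpa using sum_le_card_nsmul (range H) (fun h => x h * x h) 1
      fun h _ => by nlinarith [abs_le.1 (hx h)]
  have h1 : ∑ h ∈ range H, v h * ∑ a ∈ s, c a * e a h = H * ∑ a ∈ s, c a ^ 2 := by
    simp only [mul_sum]
    rw [sum_comm]
    refine sum_congr rfl fun a _ => ?_
    have : ∑ h ∈ range H, v h * e a h = H * c a := by rw [hc]; field_simp
    simp only [mul_left_comm (v _), ← mul_sum, this]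
    ring
  have h2 : ∑ h ∈ range H, (∑ a ∈ s, c a * e a h) * ∑ a ∈ s, c a * e a h ≤
      H * ∑ a ∈ s, c a ^ 2 := by
    simp only [sum_mul_sum]
    rw [sum_comm, mul_sum]
    refine sum_le_sum fun a ha => ?_
    rw [sum_comm, sum_eq_single_of_mem a ha]
    · rw [sum_congr rfl fun h _ => mul_mul_mul_comm (c a) (e a h) (c a) (e a h), ← mul_sum]
      nlinarith [sq1 _ (he a), mul_self_nonneg (c a)]
    · intro b hb hab
      rw [sum_congr rfl fun h _ => mul_mul_mul_comm (c a) (e a h) (c b) (e b h), ← mul_sum,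
        ho a ha b hb hab.symm, mul_zero]
  have h3 : 0 ≤ ∑ h ∈ range H, (v h - ∑ a ∈ s, c a * e a h) ^ 2 := sum_nonneg fun _ _ => sq_nonneg _
  have h4 : ∑ h ∈ range H, (v h - ∑ a ∈ s, c a * e a h) ^ 2 = ∑ h ∈ range H, v h * v h -
      2 * ∑ h ∈ range H, v h * ∑ a ∈ s, c a * e a h +
      ∑ h ∈ range H, (∑ a ∈ s, c a * e a h) * ∑ a ∈ s, c a * e a h := by
    rw [mul_sum, ← sum_sub_distrib, ← sum_add_distrib]
    exact sum_congr rfl fun _ _ => by ring
  nlinarith [sq1 v hv]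

theorem slide {P : ℕ → ℝ} (hP : ∀ n, |P n| ≤ 1) (L : ℕ) {H : ℕ} (H0 : 0 < H) :
    ∑ n ∈ range L, P n ≤ 2 * H + ∑ n ∈ range L, (H : ℝ)⁻¹ * ∑ h ∈ range H, P (n + h) := by
  have H1 : (0 : ℝ) < H := by exact_mod_cast H0
  have key : ∀ h ∈ range H, ∑ n ∈ range L, P n - 2 * H ≤ ∑ n ∈ range L, P (n + h) := by
    intro h hh
    have a1 := sum_range_add P L h
    have a2 := sum_range_add P h L
    have a3 : ∑ n ∈ range h, P n ≤ h := by
      simpa using sum_le_card_nsmul (range h) _ 1 fun n _ => (abs_le.1 (hP n)).2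
    have a4 : -(h : ℝ) ≤ ∑ n ∈ range h, P (L + n) := by
      simpa using card_nsmul_le_sum (range h) _ (-1) fun n _ => (abs_le.1 (hP (L + n))).1
    have a5 : (h : ℝ) ≤ H := by exact_mod_cast (mem_range.1 hh).le
    simp only [add_comm h] at a2
    linarith
  have := card_nsmul_le_sum _ _ _ key
  rw [card_range, nsmul_eq_mul, ← le_inv_mul_iff₀ H1, sum_comm] at this
  rw [← mul_sum]
  linarith

noncomputable def mean {q : ℕ} [NeZero q] (ψ : ZMod q → ℝ) : ℝ := (q : ℝ)⁻¹ * ∑ z, ψ z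

theorem mean_mem {q : ℕ} [NeZero q] {ψ : ZMod q → ℝ} (h : ∀ z, 0 ≤ ψ z ∧ ψ z ≤ 1) :
    0 ≤ mean ψ ∧ mean ψ ≤ 1 := by
  have q0 : (0 : ℝ) < q := by exact_mod_cast NeZero.pos q
  refine ⟨mul_nonneg (by positivity) (sum_nonneg fun z _ => (h z).1), ?_⟩
  rw [mean, inv_mul_le_iff₀ q0]
  simpa using sum_le_card_nsmul univ _ 1 fun z _ => (h z).2

theorem intg (μ : Measure X) [IsFiniteMeasure μ] (φ : C(X, ℝ)) : Integrable φ μ :=
  (BoundedContinuousFunction.mkOfCompact φ).integrable μ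

theorem corr (hT : Continuous T) {μ : Measure X} [IsProbabilityMeasure μ]
    (hu : ∀ ν : Measure X, IsProbabilityMeasure ν ∧ ν.map T = ν → ν = μ) {ι : Type} [Fintype ι]
    (φ : ι → C(X, ℝ)) (hφ : ∀ τ x, |φ τ x| ≤ 1) (q : ℕ → ℕ) [∀ a, NeZero (q a)]
    (hq : Pairwise fun a b => (q a).Coprime (q b)) (ψ : ∀ a, ι → ZMod (q a) → ℝ)
    (hψ : ∀ a τ z, 0 ≤ ψ a τ z ∧ ψ a τ z ≤ 1) {δ : ℝ} (hδ : 0 < δ) :
    ∃ a L0, ∀ L ≥ L0, ∀ y, ∑ τ, ∑ n ∈ range L, φ τ (T^[n] y) * ψ a τ n ≤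
      (∑ τ, (∫ x, φ τ x ∂μ) * mean (ψ a τ) + δ) * L := by
  obtain ⟨η, η0, hη⟩ : ∃ η > 0, (2 * Fintype.card ι + 3) * η ≤ δ :=
    ⟨δ / (2 * Fintype.card ι + 3), by positivity, by field_simp; rfl⟩
  obtain ⟨Q, hQ⟩ := exists_nat_gt (Fintype.card ι / η ^ 2)
  have Q0 : (0 : ℝ) < Q := lt_of_le_of_lt (by positivity) hQ
  set H := ∏ a ∈ range Q, q a with hH
  have H0 : 0 < H := prod_pos fun a _ => NeZero.pos _
  let ψ' : ∀ a, ι → ZMod (q a) → ℝ := fun a τ z => ψ a τ z - mean (ψ a τ)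
  have b1 : ∀ a τ z, |ψ' a τ z| ≤ 1 := fun a τ z => by
    have := mean_mem (hψ a τ)
    exact abs_le.2 ⟨by linarith [(hψ a τ z).1], by linarith [(hψ a τ z).2]⟩
  have b2 : ∀ a τ, ∑ z, ψ' a τ z = 0 := fun a τ => by
    have : (q a : ℝ) ≠ 0 := by exact_mod_cast NeZero.ne _
    simp only [ψ', sum_sub_distrib, sum_const, card_univ, ZMod.card, nsmul_eq_mul, mean]
    field_simp
    ring
  let C : ∀ a, ι → ZMod (q a) → C(X, ℝ) := fun a τ r =>
    ⟨fun y => ((H : ℝ)⁻¹ * ∑ h ∈ range H, φ τ (T^[h] y) * ψ' a τ (r + h)) ^ 2, by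
      have := fun h => hT.iterate h
      fun_prop⟩
  let Φ : ℕ → C(X, ℝ) := fun a => ∑ τ, univ.sup' univ_nonempty (C a τ)
  have b3 : ∀ y, ∑ a ∈ range Q, Φ a y ≤ Fintype.card ι := by
    intro y
    simp only [Φ, ContinuousMap.sum_apply, ContinuousMap.sup'_apply]
    rw [sum_comm]
    have : ∀ τ ∈ (univ : Finset ι),
        ∑ a ∈ range Q, univ.sup' univ_nonempty (fun r => C a τ r y) ≤ 1 := by
      intro τ _
      choose r _ hr using fun a => exists_mem_eq_sup' univ_nonempty (fun r => C a τ r y)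
      simp only [hr]
      exact bessel H0 _ _ (fun a h => ψ' a τ (r a + h)) (fun h => hφ τ _) (fun a h => b1 a τ _)
        fun a ha b hb hab => orth (hq hab) (dvd_prod_of_mem _ ha) (dvd_prod_of_mem _ hb) _ _
          (b2 a τ) _ _
    simpa using sum_le_card_nsmul _ _ 1 this
  obtain ⟨a, -, ha⟩ : ∃ a ∈ range Q, ∫ x, Φ a x ∂μ ≤ η ^ 2 := by
    refine exists_le_of_sum_le (nonempty_range_iff.2 (by exact_mod_cast Q0.ne')) ?_
    rw [← integral_finsetSum _ fun a _ => intg μ _]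
    refine (integral_mono (g := fun _ => (Fintype.card ι : ℝ))
      (integrable_finsetSum _ fun a _ => intg μ _) (integrable_const _) b3).trans ?_
    rw [div_lt_iff₀ (by positivity)] at hQ
    simpa using hQ.le
  obtain ⟨L1, h1⟩ := unif hT hu (Φ a) (show 0 < η ^ 2 by positivity)
  choose L2 h2 using fun τ => unif hT hu (φ τ) η0
  obtain ⟨L3, h3⟩ := exists_nat_ge (Fintype.card ι * (2 * H) / η)
  refine ⟨a, L1 + L3 + ∑ τ, L2 τ, fun L hL y => ?_⟩
  have c1 := (abs_le.1 (h1 L (by omega) y)).2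
  have c3 : Fintype.card ι * (2 * H) ≤ η * L := by
    rw [div_le_iff₀ η0] at h3
    have : (L3 : ℝ) ≤ L := by exact_mod_cast (by omega)
    nlinarith
  have c2 : ∀ τ ∈ (univ : Finset ι), ∑ n ∈ range L, φ τ (T^[n] y) * ψ a τ n ≤
      (∫ x, φ τ x ∂μ) * mean (ψ a τ) * L + (2 * H + 2 * η * L) +
        η⁻¹ * ∑ n ∈ range L, univ.sup' univ_nonempty (C a τ) (T^[n] y) := by
    intro τ _
    have d1 := (abs_le.1 (h2 τ L (by
      have := single_le_sum (f := L2) (fun _ _ => Nat.zero_le _) (mem_univ τ)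
      omega) y)).2
    have d2 := slide (P := fun n => φ τ (T^[n] y) * ψ' a τ n) (fun n => by
      rw [abs_mul]; exact mul_le_one₀ (hφ _ _) (abs_nonneg _) (b1 _ _ _)) L H0
    have d3 : ∑ n ∈ range L, (H : ℝ)⁻¹ * ∑ h ∈ range H, φ τ (T^[n + h] y) * ψ' a τ (n + h : ℕ) ≤
        ∑ n ∈ range L, (η + η⁻¹ * univ.sup' univ_nonempty (C a τ) (T^[n] y)) := by
      refine sum_le_sum fun n _ => ?_
      have e1 : C a τ n (T^[n] y) ≤ univ.sup' univ_nonempty (C a τ) (T^[n] y) :=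
        le_sup' (C a τ) (mem_univ (n : ZMod (q a))) _
      generalize univ.sup' univ_nonempty (C a τ) (T^[n] y) = Z at *
      simp only [C, ContinuousMap.coe_mk, ← Function.iterate_add_apply, add_comm _ n] at e1
      push_cast
      generalize (H : ℝ)⁻¹ * ∑ h ∈ range H, φ τ (T^[n + h] y) * ψ' a τ (n + h) = t at *
      rw [← sub_le_iff_le_add', le_inv_mul_iff₀ η0]
      nlinarith [sq_nonneg (t - η), sq_nonneg t, sq_nonneg η]
    have d4 : ∑ n ∈ range L, φ τ (T^[n] y) * ψ a τ n = ∑ n ∈ range L, φ τ (T^[n] y) * ψ' a τ n +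
        mean (ψ a τ) * ∑ n ∈ range L, φ τ (T^[n] y) := by
      rw [mul_sum, ← sum_add_distrib]
      exact sum_congr rfl fun n _ => by simp only [ψ']; ring
    rw [sum_add_distrib, ← mul_sum _ _ η⁻¹] at d3
    simp only [sum_const, card_range, nsmul_eq_mul] at d3
    obtain ⟨m0, m1⟩ := mean_mem (hψ a τ)
    have : 0 ≤ η * L := by positivity
    rw [d4]
    nlinarith [mul_le_mul_of_nonneg_left d1 m0, mul_le_mul_of_nonneg_right m1 this]
  refine (sum_le_sum c2).trans ?_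
  rw [sum_add_distrib, sum_add_distrib, ← sum_mul, ← mul_sum, sum_comm]
  simp only [sum_const, card_univ, nsmul_eq_mul]
  simp only [Φ, ContinuousMap.sum_apply] at c1 ha
  have L0 : (0 : ℝ) ≤ L := Nat.cast_nonneg _
  have c4 : η⁻¹ * ∑ n ∈ range L, ∑ τ, univ.sup' univ_nonempty (C a τ) (T^[n] y) ≤ 2 * η * L := by
    rw [inv_mul_le_iff₀ η0]
    nlinarith [mul_le_mul_of_nonneg_left ha L0]
  nlinarith [mul_le_mul_of_nonneg_right hη L0]

end Pool.Agent.H.MP_28fd2b_an
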