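import Pool.Agent.H.MP_28fd2b_an.A

namespace Pool.Agent.H.MP_28fd2b_an

open Filter Topology MeasureTheory Finset

variable {X : Type} [MetricSpace X] [CompactSpace X] [MeasurableSpace X] [BorelSpace X]
  {T : X → X}

theorem lim_le {a b c : ℝ} {L0 : ℕ} (h : ∀ L ≥ L0, a * L ≤ b * L + c) : a ≤ b := by
  by_contra hn
  push Not at hn
  obtain ⟨L, hL⟩ := exists_nat_gt (c / (a - b))
  have := h (L + L0) (by omega)
  rw [div_lt_iff₀ (by linarith)] at hL
  push_cast at this
  nlinarith [Nat.cast_nonneg (α := ℝ) L0]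

theorem one_sub_sum_le (a : ℕ → ℝ) (h : ∀ j, 0 ≤ a j ∧ a j ≤ 1) (m : ℕ) :
    1 - ∑ j ∈ range m, (1 - a j) ≤ ∏ j ∈ range m, a j := by
  induction m with
  | zero => simp
  | succ m ih =>
    rw [sum_range_succ, prod_range_succ]
    have h1 : ∏ j ∈ range m, a j ≤ 1 := prod_le_one (fun j _ => (h j).1) fun j _ => (h j).2
    nlinarith [h m]

theorem core (hT : Continuous T) {μ : Measure X} [IsProbabilityMeasure μ] (hi : μ.map T = μ)
    (hu : ∀ ν : Measure X, IsProbabilityMeasure ν ∧ ν.map T = ν → ν = μ) {k m : ℕ} (hk : 0 < k)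
    (φ : Fin k → C(X, ℝ)) (h0 : ∀ i x, 0 ≤ φ i x) (h1 : ∀ x, ∑ i, φ i x ≤ 1)
    (H : ∀ (g : ℕ → Fin k) (L : ℕ), ∃ (y : X) (s : Finset ℕ), s ⊆ range L ∧ L ≤ k * s.card ∧
      (∀ n ∈ s, φ (g n) (T^[n] y) = 1) ∧ ∀ n, ∃ j < m, n + j ∉ s) : False := by
  classical
  have k0 : (0 : ℝ) < k := by exact_mod_cast hk
  have h2 : ∀ i x, φ i x ≤ 1 := fun i x =>
    (single_le_sum (f := fun i => φ i x) (fun i _ => h0 i x) (mem_univ i)).trans (h1 x)
  have m0 : 0 < m := by
    obtain ⟨_, _, -, -, -, h⟩ := H (fun _ => ⟨0, hk⟩) 0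
    obtain ⟨j, hj, -⟩ := h 0
    omega
  have s1 : ∀ i, (k : ℝ)⁻¹ ≤ ∫ x, φ i x ∂μ := by
    intro i
    refine le_of_forall_pos_le_add fun ε hε => ?_
    obtain ⟨L0, hL⟩ := unif hT hu (φ i) hε
    refine lim_le (c := 0) (L0 := L0) fun L h => ?_
    obtain ⟨y, s, a1, a2, a3, -⟩ := H (fun _ => i) L
    have b1 := (abs_le.1 (hL L h y)).2
    have b2 : ∑ n ∈ s, φ i (T^[n] y) ≤ ∑ n ∈ range L, φ i (T^[n] y) :=
      sum_le_sum_of_subset_of_nonneg a1 fun _ _ _ => h0 _ _
    rw [sum_congr rfl a3] at b2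
    simp only [sum_const, nsmul_eq_mul, mul_one] at b2
    have : (k : ℝ)⁻¹ * L ≤ s.card := by rw [inv_mul_le_iff₀ k0]; exact_mod_cast a2
    linarith
  have s2 : ∑ i, ∫ x, φ i x ∂μ ≤ 1 := by
    rw [← integral_finsetSum _ fun i _ => intg μ _]
    simpa using integral_mono (g := fun _ => (1 : ℝ))
      (integrable_finsetSum _ fun i _ => intg μ _) (integrable_const _) h1
  have s3 : ∀ i, ∫ x, φ i x ∂μ = (k : ℝ)⁻¹ := by
    have := (sum_eq_sum_iff_of_le fun i (_ : i ∈ univ) => s1 i).1 (le_antisymm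
      (sum_le_sum fun i _ => s1 i) (by simpa [k0.ne'] using s2))
    exact fun i => (this i (mem_univ i)).symm
  have it : ∀ j (f : C(X, ℝ)), ∫ x, f (T^[j] x) ∂μ = ∫ x, f x ∂μ := by
    intro j f
    have : μ.map T^[j] = μ := (MeasurePreserving.iterate ⟨hT.measurable, hi⟩ j).map_eq
    conv_rhs => rw [← this]
    rw [integral_map (hT.iterate j).aemeasurable f.continuous.aestronglyMeasurable]
  let I : ℕ → C(X, X) := fun j => ⟨T^[j], hT.iterate j⟩
  let P : (Fin m → Fin k) → C(X, ℝ) := fun w => ∏ j, (φ (w j)).comp (I j)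
  have hP : ∀ w x, P w x = ∏ j, φ (w j) (T^[j] x) := fun w x => by simp [P, I]
  obtain ⟨w, hw⟩ : ∃ w, 0 < ∫ x, P w x ∂μ := by
    by_contra hn
    push Not at hn
    have a1 := sum_nonpos fun w (_ : w ∈ univ) => hn w
    rw [← integral_finsetSum _ fun w _ => intg μ _] at a1
    have a2 := integral_mono (f := ⇑(1 - ∑ j ∈ range m, (1 - (∑ i, φ i).comp (I j)) : C(X, ℝ)))
      (intg μ _) (integrable_finsetSum univ fun w _ => intg μ (P w)) fun x => by
        have := one_sub_sum_le (fun j => ∑ i, φ i (T^[j] x))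
          (fun j => ⟨sum_nonneg fun i _ => h0 _ _, h1 _⟩) m
        rw [← Fin.prod_univ_eq_prod_range (fun j => ∑ i, φ i (T^[j] x)), Fintype.prod_sum] at this
        simpa [hP, I] using this
    have a3 : ∀ j, ∫ x, (1 - (∑ i, φ i).comp (I j) : C(X, ℝ)) x ∂μ = 0 := by
      intro j
      have := it j (1 - ∑ i, φ i)
      refine Eq.trans this ?_
      simp only [ContinuousMap.sub_apply, ContinuousMap.one_apply, ContinuousMap.sum_apply]
      rw [integral_sub (integrable_const _) (integrable_finsetSum _ fun i _ => intg μ _),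
        integral_finsetSum _ fun i _ => intg μ _]
      simp [s3, k0.ne']
    simp only [ContinuousMap.sub_apply, ContinuousMap.one_apply,
      ContinuousMap.sum_apply (range m)] at a2
    have a4 := integral_finsetSum (μ := μ) (range m)
      fun j _ => intg μ (1 - (∑ i, φ i).comp (I j) : C(X, ℝ))
    simp only [a3, sum_const_zero] at a4
    simp only [ContinuousMap.sub_apply, ContinuousMap.one_apply] at a4
    have a5 := integrable_finsetSum (μ := μ) (range m)
      fun j _ => intg μ (1 - (∑ i, φ i).comp (I j) : C(X, ℝ))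
    simp only [ContinuousMap.sub_apply, ContinuousMap.one_apply] at a5
    rw [integral_sub (integrable_const _) a5, a4] at a2
    simp at a2
    linarith
  have P0 : ∀ x, 0 ≤ P w x := fun x => by rw [hP]; exact prod_nonneg fun _ _ => h0 _ _
  have P1 : ∀ x (j : Fin m), P w x ≤ φ (w j) (T^[j] x) := fun x j => by
    rw [hP, ← mul_prod_erase _ _ (mem_univ j)]
    exact mul_le_of_le_one_right (h0 _ _) (prod_le_one (fun _ _ => h0 _ _) fun _ _ => h2 _ _)
  set c := ∫ x, P w x ∂μ with hc
  let q : ℕ → ℕ := fun a => Nat.fermatNumber (a + m)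
  have qm : ∀ a, m ≤ q a := fun a => (Nat.le_add_left m a).trans Nat.fermatNumber_strictMono.le_apply
  have : ∀ a, NeZero (q a) := fun a => ⟨by have := qm a; omega⟩
  let G : ∀ a, ZMod (q a) → Fin k := fun a z => w ⟨z.val % m, Nat.mod_lt _ m0⟩
  let St : ∀ a, ZMod (q a) → Prop := fun a z => z.val % m = 0 ∧ z.val + m ≤ q a
  obtain ⟨a, L0, hL⟩ := corr hT hu (ι := Option (Fin k)) (fun τ => τ.elim (-P w) φ)
    (by
      rintro (_ | i) x
      · simpa [abs_of_nonneg (P0 x)] using (P1 x ⟨0, m0⟩).trans (h2 _ _)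
      · simpa [abs_of_nonneg (h0 i x)] using h2 i x) q
    (fun a b hab => Nat.coprime_fermatNumber_fermatNumber (by omega))
    (fun a τ z => τ.elim (if St a z then 1 else 0) fun i => if G a z = i then 1 else 0)
    (by rintro a (_ | i) z <;> simp only [Option.elim] <;> split_ifs <;> simp)
    (δ := c / (4 * m)) (by positivity)
  have q0 : (0 : ℝ) < q a := by exact_mod_cast NeZero.pos (q a)
  have m1 : (0 : ℝ) < m := by exact_mod_cast m0
  have e1 : ∑ i, mean (fun z => if G a z = i then (1 : ℝ) else 0) = 1 := by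
    simp only [mean, ← mul_sum]
    rw [sum_comm]
    simp [q0.ne']
  have e2 : 1 / (2 * m) ≤ mean (fun z => if St a z then (1 : ℝ) else 0) := by
    have b1 : q a / m ≤ (univ.filter (St a)).card := by
      have b2 : ∀ j < q a / m, j * m + m ≤ q a := fun j hj => by
        have := Nat.div_mul_le_self (q a) m
        nlinarith
      have b3 : ∀ j < q a / m, ((j * m : ℕ) : ZMod (q a)).val = j * m := fun j hj =>
        ZMod.val_cast_of_lt (by have := b2 j hj; omega)
      simpa using card_le_card_of_injOn (s := range (q a / m)) (t := univ.filter (St a))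
        (fun j => ((j * m : ℕ) : ZMod (q a))) (fun j hj => by
          have hj := mem_range.1 hj
          simp only [coe_filter, mem_univ, true_and, Set.mem_setOf_eq, St, b3 j hj]
          exact ⟨by simp, b2 j hj⟩) fun i hi j hj h => by
          have := congrArg ZMod.val h
          rw [b3 i (mem_range.1 hi), b3 j (mem_range.1 hj)] at this
          exact Nat.eq_of_mul_eq_mul_right m0 this
    have b4 : q a ≤ 2 * m * (q a / m) := by
      have := Nat.div_add_mod (q a) m
      have := Nat.mod_lt (q a) m0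
      have := Nat.div_pos (qm a) m0
      nlinarith
    rw [mean, sum_boole, le_inv_mul_iff₀ q0, mul_one_div, div_le_iff₀ (by positivity)]
    exact_mod_cast b4.trans (by nlinarith)
  have : (k : ℝ)⁻¹ ≤ (k : ℝ)⁻¹ - c / (4 * m) := by
    refine lim_le (c := m) (L0 := L0) fun L h => ?_
    obtain ⟨y, s, a1, a2, a3, a4⟩ := H (fun n => G a n) L
    choose j hj hs using a4
    have b1 := hL L h y
    simp only [Fintype.sum_option, Option.elim, s3, ← mul_sum, e1, ContinuousMap.neg_apply,
      integral_neg, ← hc] at b1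
    rw [sum_comm (s := univ)] at b1
    simp only [mul_ite, mul_one, mul_zero, sum_ite_eq, mem_univ, if_true] at b1
    rw [← sum_filter, sum_neg_distrib] at b1
    have val : ∀ n : ℕ, St a n → ∀ i < m, ((n + i : ℕ) : ZMod (q a)).val % m = i := by
      intro n hn i hi
      obtain ⟨c1, c2⟩ := hn
      rw [Nat.cast_add, ZMod.val_add, ZMod.val_cast_of_lt (a := i) (by omega),
        Nat.mod_eq_of_lt (a := _ + i) (b := q a) (by omega), Nat.add_mod, c1, zero_add, Nat.mod_mod, Nat.mod_eq_of_lt hi]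
    have inj : Set.InjOn (fun n => n + j n) ((range L).filter fun n : ℕ => St a n) := by
      intro n hn n' hn' h
      have c1 := val n (mem_filter.1 hn).2 _ (hj n)
      have c2 := val n' (mem_filter.1 hn').2 _ (hj n')
      simp only at h
      rw [h, c2] at c1
      omega
    have b2 : ∑ n ∈ (range L).filter fun n : ℕ => St a n, P w (T^[n] y) ≤
        ∑ n ∈ ((range L).filter fun n : ℕ => St a n).image fun n => n + j n,
          φ (G a n) (T^[n] y) := by
      rw [sum_image inj]
      refine sum_le_sum fun n hn => (P1 _ ⟨j n, hj n⟩).trans (le_of_eq ?_)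
      simp only [G, val n (mem_filter.1 hn).2 _ (hj n)]
      have : T^[n + j n] y = T^[j n] (T^[n] y) := by rw [add_comm, Function.iterate_add_apply]
      rw [this]
    have b3 := sum_le_sum_of_subset_of_nonneg (f := fun n : ℕ => φ (G a n) (T^[n] y))
      (s := s ∪ ((range L).filter fun n : ℕ => St a n).image fun n => n + j n)
      (t := range (L + m)) (union_subset (a1.trans (range_mono (by omega))) fun n hn => by
        obtain ⟨n', h1, rfl⟩ := mem_image.1 hn
        have := mem_range.1 (mem_filter.1 h1).1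
        have := hj n'
        exact mem_range.2 (by omega)) fun _ _ _ => h0 _ _
    rw [sum_union (disjoint_right.2 fun n hn => by
      obtain ⟨n', -, rfl⟩ := mem_image.1 hn
      exact hs n'), sum_range_add, sum_congr rfl a3] at b3
    simp only [sum_const, nsmul_eq_mul, mul_one] at b3
    have b4 : ∑ n ∈ range m, φ (G a (L + n : ℕ)) (T^[L + n] y) ≤ m := by
      simpa using sum_le_card_nsmul (range m) _ 1 fun n _ => h2 (G a (L + n : ℕ)) (T^[L + n] y)
    have b5 : (k : ℝ)⁻¹ * L ≤ s.card := by rw [inv_mul_le_iff₀ k0]; exact_mod_cast a2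
    have b6 : c / (4 * m) * 2 ≤ c * mean (fun z => if St a z then (1 : ℝ) else 0) := by
      refine le_trans (le_of_eq ?_) (mul_le_mul_of_nonneg_left e2 hw.le)
      field_simp
      ring
    nlinarith [mul_le_mul_of_nonneg_right b6 (Nat.cast_nonneg (α := ℝ) L)]
  have : 0 < c / (4 * m) := by positivity
  linarith

open Classical in
/-- number of elements of `S` in `{a+1, ..., a+N}` -/
noncomputable def cnt (S : Set ℕ) (a N : ℕ) : ℕ := ((Icc (a + 1) (a + N)).filter (· ∈ S)).card

/-- the upper Banach density of `S` is `δ` -/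
def HasBanach (S : Set ℕ) (δ : ℝ) : Prop :=
  Tendsto (fun N : ℕ => ⨆ a : ℕ, (cnt S a N : ℝ) / N) atTop (𝓝 δ)

/-- weak interpolation sets of order `k` for uniquely ergodic systems -/
def WIS (k : ℕ) (S : Set ℕ) : Prop :=
  ∀ f : S → Fin k, ∃ (X : Type) (_ : MetricSpace X) (_ : CompactSpace X) (_ : MeasurableSpace X)
    (_ : BorelSpace X) (T : X → X), Continuous T ∧
    (∃! μ : Measure X, IsProbabilityMeasure μ ∧ μ.map T = μ) ∧
    ∃ (x : X) (F : C(X, ℂ)), DenseRange (fun n => T^[n] x) ∧
      ∀ n : S, F (T^[n] x) = ((f n : ℕ) : ℂ)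

open Classical in
theorem cnt_eq (S : Set ℕ) (a N : ℕ) :
    cnt S a N = ((range N).filter fun n => a + 1 + n ∈ S).card := by
  symm
  refine card_bij (fun n _ => a + 1 + n) (fun n hn => ?_) (fun n _ n' _ h => by omega) fun b hb => ?_
  · simp only [mem_filter, mem_range, mem_Icc] at hn ⊢
    exact ⟨by omega, hn.2⟩
  · simp only [mem_filter, mem_range, mem_Icc] at hb ⊢
    obtain ⟨n, rfl⟩ := Nat.exists_eq_add_of_le hb.1.1
    exact ⟨n, ⟨by omega, hb.2⟩, rfl⟩

theorem cnt_le (S : Set ℕ) (a N : ℕ) : cnt S a N ≤ N := by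
  classical
  rw [cnt_eq]
  exact (card_filter_le _ _).trans (card_range N).le

theorem cnt_add (S : Set ℕ) (a N M : ℕ) : cnt S a (N + M) = cnt S a N + cnt S (a + N) M := by
  classical
  simp only [cnt_eq, card_filter, sum_range_add]
  congr 1
  exact sum_congr rfl fun n _ => by rw [show a + 1 + (N + n) = a + N + 1 + n by omega]

theorem bdd (S : Set ℕ) (N : ℕ) : BddAbove (Set.range fun a : ℕ => (cnt S a N : ℝ) / N) :=
  ⟨1, by
    rintro _ ⟨a, rfl⟩
    exact div_le_one_of_le₀ (by exact_mod_cast cnt_le S a N) (Nat.cast_nonneg _)⟩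

theorem window {S : Set ℕ} {k : ℕ} (hk : 0 < k) (h : HasBanach S (1 / k)) (L A : ℕ) :
    ∃ a ≥ A, L ≤ k * cnt S a L := by
  by_contra hn
  push Not at hn
  have L0 : 0 < L := by have := hn A le_rfl; omega
  have k0 : (0 : ℝ) < k := by exact_mod_cast hk
  have L1 : (0 : ℝ) < L := by exact_mod_cast L0
  have key : ∀ a J, k * cnt S a (J * L) + J ≤ J * L + min J A * (k * L + 1) := by
    intro a J
    induction J with
    | zero => simp [cnt]
    | succ J ih =>
      rw [add_one_mul, cnt_add, mul_add]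
      rcases le_or_gt A J with h1 | h1
      · have := hn (a + J * L) (by nlinarith)
        rw [min_eq_right h1] at ih
        rw [min_eq_right (by omega)]
        omega
      · have := Nat.mul_le_mul_left k (cnt_le S (a + J * L) L)
        rw [min_eq_left h1.le] at ih
        rw [min_eq_left h1, add_one_mul]
        omega
  have h1 : Tendsto (fun J : ℕ => ⨆ a : ℕ, (cnt S a (J * L) : ℝ) / (J * L : ℕ)) atTop (𝓝 (1 / k)) :=
    h.comp (tendsto_id.atTop_mul_const' L0)
  have h2 : Tendsto (fun J : ℕ => 1 / k - 1 / (k * L) + (A * (k * L + 1) / (k * L) : ℝ) / J) atTop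
      (𝓝 (1 / k - 1 / (k * L) + 0)) :=
    tendsto_const_nhds.add (tendsto_const_div_atTop_nhds_zero_nat _)
  have := le_of_tendsto_of_tendsto h1 h2 ((eventually_gt_atTop 0).mono fun J hJ =>
    ciSup_le fun a => by
      have J0 : (0 : ℝ) < J := by exact_mod_cast hJ
      have h3 : (k * cnt S a (J * L) + J : ℝ) ≤ J * L + A * (k * L + 1) := by
        exact_mod_cast (key a J).trans (Nat.add_le_add_left
          (Nat.mul_le_mul_right _ (min_le_right _ _)) _)
      push_cast
      rw [div_le_iff₀ (by positivity)]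
      refine le_of_mul_le_mul_left ?_ k0
      field_simp
      linarith)
  have : 0 < 1 / ((k : ℝ) * L) := by positivity
  linarith

theorem norun {S : Set ℕ} {δ : ℝ} (hδ : δ < 1) (h : HasBanach S δ) :
    ∃ m, ∀ a, ∃ j < m, a + 1 + j ∉ S := by
  classical
  obtain ⟨m, h1, h2⟩ := ((h.eventually (gt_mem_nhds hδ)).and (eventually_gt_atTop 0)).exists
  refine ⟨m, fun a => ?_⟩
  by_contra hn
  push Not at hn
  have := (le_ciSup (bdd S m) a).trans_lt h1
  rw [cnt_eq, filter_true_of_mem fun j hj => hn j (mem_range.1 hj), card_range,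
    div_self (by exact_mod_cast h2.ne')] at this
  exact lt_irrefl _ this

theorem universal {S : Set ℕ} {k : ℕ} (hk : 0 < k) (h : HasBanach S (1 / k)) :
    ∃ f : ℕ → Fin k, ∀ (g : ℕ → Fin k) (L : ℕ), ∃ a, L ≤ k * cnt S a L ∧
      ∀ n < L, f (a + 1 + n) = g n := by
  obtain ⟨e, he⟩ := exists_surjective_nat (List (Fin k))
  choose W h1 h2 using window hk h
  let a : ℕ → ℕ := fun t => Nat.rec (W (e 0).length 0)
    (fun t p => W (e (t + 1)).length (p + (e t).length + 1)) t
  have a1 : ∀ t, a t + (e t).length + 1 ≤ a (t + 1) := fun t => h1 _ _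
  have a2 : ∀ t, (e t).length ≤ k * cnt S (a t) (e t).length := by
    rintro (_ | t)
    exacts [h2 _ _, h2 _ _]
  have a3 : StrictMono a := strictMono_nat_of_lt_succ fun t => by have := a1 t; omega
  clear_value a
  let b : ℕ → ℕ := fun n => @Nat.findGreatest (fun t => a t < n) (fun _ => Nat.decLt _ _) n
  refine ⟨fun n : ℕ => (e (b n)).getD (n - a (b n) - 1) ⟨0, hk⟩, fun g L => ?_⟩
  obtain ⟨t, ht⟩ := he (List.ofFn fun i : Fin L => g i)
  have hl : (e t).length = L := by simp [ht]
  refine ⟨a t, hl ▸ a2 t, fun n hn => ?_⟩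
  have : b (a t + 1 + n) = t := by
    refine (@Nat.findGreatest_eq_iff _ _ _ (fun _ => Nat.decLt _ _)).2 ⟨by have := a3.le_apply (x := t); omega, fun _ => by omega, fun s hs _ => ?_⟩
    have := a3.monotone (Nat.succ_le_of_lt hs)
    have := a1 t
    simp only [Nat.succ_eq_add_one] at *
    omega
  simp only [this, ht]
  rw [show a t + 1 + n - a t - 1 = n by omega]
  simp [hn]

theorem main {S : Set ℕ} {k : ℕ} (hk : 2 ≤ k) (hW : WIS k S) (h : HasBanach S (1 / k)) : False := by
  classical
  have k0 : 0 < k := by omega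
  obtain ⟨f, hf⟩ := universal k0 h
  obtain ⟨m, hm⟩ := norun (by
    rw [div_lt_one (by exact_mod_cast k0)]; exact_mod_cast hk) h
  obtain ⟨X, _, _, _, _, T, hT, ⟨μ, ⟨h1, h2⟩, hu⟩, x, F, -, hF⟩ := hW fun n => f n
  let φ : Fin k → C(X, ℝ) := fun i => ⟨fun y => max (1 - 2 * ‖F y - (i : ℕ)‖) 0, by fun_prop⟩
  refine core hT h2 hu (m := m) k0 φ (fun i x => le_max_right _ _) (fun y => ?_) fun g L => ?_
  · by_cases h3 : ∃ i, φ i y ≠ 0
    · obtain ⟨i, hi⟩ := h3
      have key : ∀ j, φ j y ≠ 0 → ‖F y - (j : ℕ)‖ < 1 / 2 := fun j hj => by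
        by_contra h4
        exact hj (max_eq_right (by linarith))
      rw [sum_eq_single i (fun j _ hj => ?_) (by simp)]
      · exact max_le (by linarith [norm_nonneg (F y - (i : ℕ))]) zero_le_one
      · by_contra h5
        have h6 := norm_sub_le (F y - (i : ℕ)) (F y - (j : ℕ))
        have h7 : ‖(((j : ℤ) - (i : ℤ) : ℤ) : ℂ)‖ < 1 := by
          push_cast
          rw [show ((j : ℕ) : ℂ) - (i : ℕ) = F y - (i : ℕ) - (F y - (j : ℕ)) by ring]
          linarith [key i hi, key j h5]
        rw [Complex.norm_intCast, ← Int.cast_abs, ← Int.cast_one, Int.cast_lt,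
          Int.abs_lt_one_iff] at h7
        exact hj (Fin.ext (by omega))
    · push Not at h3
      simp [h3]
  · obtain ⟨a, h3, h4⟩ := hf g L
    refine ⟨T^[a + 1] x, (range L).filter fun n => a + 1 + n ∈ S, filter_subset _ _,
      cnt_eq S a L ▸ h3, fun n hn => ?_, fun n => ?_⟩
    · obtain ⟨h5, h6⟩ := mem_filter.1 hn
      have := hF ⟨_, h6⟩
      simp only [h4 n (mem_range.1 h5)] at this
      rw [← Function.iterate_add_apply, add_comm n]
      simp [φ, this]
    · obtain ⟨j, h5, h6⟩ := hm (a + n)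
      refine ⟨j, h5, fun h7 => h6 ?_⟩
      rw [show a + n + 1 + j = a + 1 + (n + j) by omega]
      exact (mem_filter.1 h7).2

theorem one : WIS 1 {n | 1 ≤ n} ∧ HasBanach {n | 1 ≤ n} 1 := by
  classical
  constructor
  · intro f
    refine ⟨Unit, inferInstance, inferInstance, inferInstance, inferInstance, id, continuous_id,
      ⟨Measure.dirac (), ⟨inferInstance, Measure.map_id⟩, fun ν hν => ?_⟩, (), 0,
      Function.Surjective.denseRange fun _ => ⟨0, rfl⟩, fun n => by simp⟩
    have := hν.1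
    ext s -
    rcases s.eq_empty_or_nonempty with rfl | h
    · simp
    · rw [Subsingleton.eq_univ_of_nonempty h]
      simp
  · refine tendsto_const_nhds.congr' ((eventually_gt_atTop 0).mono fun N hN => ?_)
    have : ∀ a, (cnt {n | 1 ≤ n} a N : ℝ) / N = 1 := fun a => by
      have : cnt {n | 1 ≤ n} a N = N := by
        rw [cnt_eq]
        refine Eq.trans (congrArg card ?_) (card_range N)
        ext j
        simp only [mem_filter, Set.mem_setOf_eq, and_iff_left_iff_imp]
        omega
      rw [this, div_self (by exact_mod_cast hN.ne')]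
    simp [this]

end Pool.Agent.H.MP_28fd2b_an
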